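import Pool.Agent.BSS.Stmt
import Pool.Agent.BSS.ATFinal

open MeasureTheory Set

/-- Negative answer to Q1 for `m = 3`: on `ℝ⁷` with a suitable smooth Riemannian metric `g`
(uniformly equivalent to the Euclidean one, hence complete) there is an integral current `T` of
dimension `3` whose boundary is a union of four disjoint smoothly embedded oriented tori, which
has least `g`-mass among all integral currents (indeed among all functionals on test forms) with
the same boundary, and whose boundary singular set has positive two-dimensional Hausdorff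
measure. -/
theorem Pool.Agent.Results.MP_bff03b_an.Disproof.result :
    ∃ (g : BSS.Metric 7) (Γ : Fin 4 → BSS.EmbTorus 7) (σ : Fin 4 → ℤ) (T : BSS.Current 7 3),
      (∀ i, σ i = 1 ∨ σ i = -1) ∧
      Pairwise (fun i j => Disjoint (range (Γ i).γ) (range (Γ j).γ)) ∧
      (∀ φ, BSS.bdry T φ = ∑ i, (σ i : ℝ) * BSS.pieceInt (Γ i).γ BSS.square φ) ∧
      BSS.IsMinimizing g T ∧
      (∀ S : BSS.Current 7 3, BSS.bdry S = BSS.bdry T → BSS.mass g T ≤ BSS.mass g S) ∧
      0 < Measure.hausdorffMeasure 2 (BSS.SingB 4 T (⋃ i, range (Γ i).γ)) :=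
  Pool.Agent.BSS.goal
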